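import Pool.Agent.H418R3.FB.Stmts

/-! Project FB: TaskPos (helper251). -/

set_option autoImplicit false
open Set Topology Filter

namespace Pool.Agent.H418R3.FB.Pos

theorem idx_mono (s : List ℕ) {k k' : ℕ} (h : k ≤ k') : idx s k ≤ idx s k' := by
  unfold idx
  rw [← List.countP_eq_length_filter, ← List.countP_eq_length_filter]
  apply List.countP_mono_left
  intro x _ hx
  simp only [decide_eq_true_eq] at hx ⊢
  omega

theorem one_le_HH (b : ℕ) : 1 ≤ HH b := by
  unfold HH
  have : (0 : ℝ) ≤ b := Nat.cast_nonneg b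
  linarith

theorem HH_le_rr (b : ℕ) : HH b ≤ rr b := by
  unfold HH rr
  have h1 : b + 1 ≤ (b + 1).factorial := Nat.self_le_factorial _
  have h2 : b + 1 ≤ 2 ^ (b + 1).factorial := h1.trans (Nat.lt_two_pow_self).le
  exact_mod_cast h2

theorem one_le_rr (b : ℕ) : 1 ≤ rr b := (one_le_HH b).trans (HH_le_rr b)

theorem wt_le_up (σ : ℕ → List ℕ) (b k a a' : ℕ) :
    wt σ b k a a' ≤ rr b ^ (idx (σ b) k + 1) := by
  unfold wt
  rw [pow_succ]
  apply mul_le_mul_of_nonneg_left _ (pow_nonneg (zero_le_one.trans (one_le_rr b)) _)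
  split_ifs
  · exact one_le_rr b
  · exact HH_le_rr b

theorem low_le_wt (σ : ℕ → List ℕ) (b k a a' : ℕ) :
    rr b ^ idx (σ b) k ≤ wt σ b k a a' := by
  unfold wt
  have h0 : (0 : ℝ) ≤ rr b ^ idx (σ b) k := pow_nonneg (zero_le_one.trans (one_le_rr b)) _
  split_ifs
  · rw [mul_one]
  · exact le_mul_of_one_le_right h0 (one_le_HH b)

theorem wt_nonneg (σ : ℕ → List ℕ) (b k a a' : ℕ) : 0 ≤ wt σ b k a a' :=
  (pow_nonneg (zero_le_one.trans (one_le_rr b)) _).trans (low_le_wt σ b k a a')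

theorem wt_jump (σ : ℕ → List ℕ) (b k k' a a' c c' : ℕ) (h : idx (σ b) k < idx (σ b) k') :
    wt σ b k a a' ≤ wt σ b k' c c' :=
  (wt_le_up σ b k a a').trans
    ((pow_le_pow_right₀ (one_le_rr b) h).trans (low_le_wt σ b k' c c'))

theorem wt_mono (σ : ℕ → List ℕ) (b a a' : ℕ) {k k' : ℕ} (h : k ≤ k') :
    wt σ b k a a' ≤ wt σ b k' a a' := by
  rcases (idx_mono (σ b) h).eq_or_lt with h1 | h1
  · unfold wt
    rw [h1]
  · exact wt_jump σ b k k' a a' a a' h1

theorem wt_symm (σ : ℕ → List ℕ) (b k a a' : ℕ) : wt σ b k a a' = wt σ b k a' a := by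
  unfold wt
  congr 1
  simp only [or_comm]

theorem wt_m (σ : ℕ → List ℕ) (b k k' a a' m : ℕ) (hk : k ≤ k')
    (hm : idx (σ b) k = m → m < idx (σ b) k') : wt σ b k a a' ≤ wt σ b k' a m := by
  by_cases h : idx (σ b) k = m
  · exact wt_jump σ b k k' a a' a m (by rw [h]; exact hm h)
  · refine le_trans ?_ (wt_mono σ b a m hk)
    unfold wt
    apply mul_le_mul_of_nonneg_left _ (pow_nonneg (zero_le_one.trans (one_le_rr b)) _)
    by_cases h1 : a = idx (σ b) k
    · simp [h1]
    · have h2 : ¬ (a = idx (σ b) k ∨ m = idx (σ b) k) := by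
        rintro (h3 | h3)
        · exact h1 h3
        · exact h h3.symm
      rw [if_neg h2]
      split_ifs
      · exact one_le_HH b
      · exact le_rfl

section main

variable {σ : ℕ → List ℕ} {ξ : ℕ → ℕ → CR →L[ℝ] ℝ} {e : ℕ → ℕ → CR} (H : BSp σ ξ e)
  {A : Set ℕ} {mm : ℕ → ℕ}

/-- the index set -/
def LL (σ : ℕ → List ℕ) (A : Set ℕ) (mm : ℕ → ℕ) : Type :=
  {q : ℕ × ℕ // q.1 ∈ A ∧ q.2 < (σ q.1).length ∧ q.2 ≠ mm q.1}

/-- the basis vectors -/
noncomputable def vv (σ : ℕ → List ℕ) (e : ℕ → ℕ → CR) (q : ℕ × ℕ) : CR :=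
  if q.2 = 0 then - ∑ a ∈ Finset.Ico 1 (σ q.1).length, e q.1 a else e q.1 q.2

/-- the coefficients -/
noncomputable def cc (ξ : ℕ → ℕ → CR →L[ℝ] ℝ) (mm : ℕ → ℕ) (q : ℕ × ℕ) : CR →L[ℝ] ℝ :=
  ξ q.1 q.2 - ξ q.1 (mm q.1)

/-- partial sums -/
noncomputable def SS (σ : ℕ → List ℕ) (ξ : ℕ → ℕ → CR →L[ℝ] ℝ) (e : ℕ → ℕ → CR) (A : Set ℕ)
    (mm : ℕ → ℕ) (F : Finset (LL σ A mm)) (g : CR) : CR :=
  ∑ q ∈ F, cc ξ mm q.1 g • vv σ e q.1

/-- coordinates of the partial sums -/
noncomputable def DD (σ : ℕ → List ℕ) (ξ : ℕ → ℕ → CR →L[ℝ] ℝ) (A : Set ℕ)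
    (mm : ℕ → ℕ) (F : Finset (LL σ A mm)) (g : CR) (b a : ℕ) : ℝ :=
  ∑ q ∈ F, if q.1 = (b, a) then cc ξ mm q.1 g else 0

include H in
theorem xi_v (q : LL σ A mm) (b a a' : ℕ) (ha : a < (σ b).length) (ha' : a' < (σ b).length) :
    ξ b a (vv σ e q.1) - ξ b a' (vv σ e q.1) =
      (if q.1 = (b, a) then 1 else 0) - (if q.1 = (b, a') then 1 else 0) := by
  obtain ⟨⟨b', j⟩, hA, hj, hjm⟩ := q
  simp only at hA hj hjm ⊢
  unfold vv
  by_cases hj0 : j = 0
  · subst hj0
    simp only [if_true, map_neg, map_sum]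
    have key : ∀ i, i < (σ b).length →
        ∑ x ∈ Finset.Ico 1 (σ b').length, ξ b i (e b' x) = if b = b' ∧ i ≠ 0 then 1 else 0 := by
      intro i hi
      have h1 : ∀ x ∈ Finset.Ico 1 (σ b').length, ξ b i (e b' x) =
          if x = i then (if b = b' then (1 : ℝ) else 0) else 0 := by
        intro x hx
        rw [Finset.mem_Ico] at hx
        rw [H.ξe b' x (by omega) hx.2]
        by_cases h2 : b = b'
        · by_cases h3 : x = i
          · simp [h2, h3]
          · have h3' : ¬ i = x := fun h => h3 h.symm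
            simp [h2, h3, h3']
        · by_cases h3 : x = i
          · simp [h2, h3]
          · have h3' : ¬ i = x := fun h => h3 h.symm
            simp [h2, h3]
      rw [Finset.sum_congr rfl h1, Finset.sum_ite_eq']
      by_cases h2 : b = b'
      · subst h2
        by_cases h3 : i = 0
        · subst h3
          simp
        · have : i ∈ Finset.Ico 1 (σ b).length := Finset.mem_Ico.2 ⟨by omega, hi⟩
          simp [this, h3]
      · simp [h2]
    rw [key a ha, key a' ha']
    by_cases h2 : b = b'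
    · subst h2
      by_cases h3 : a = 0 <;> by_cases h4 : a' = 0 <;> simp [h3, h4, eq_comm, Prod.ext_iff]
    · have h2' : ¬ b' = b := fun h => h2 h.symm
      simp [h2, h2', Prod.ext_iff]
  · simp only [if_neg hj0]
    rw [H.ξe b' j (by omega) hj, H.ξe b' j (by omega) hj]
    congr 1
    · by_cases h2 : b = b' <;> by_cases h3 : a = j <;> simp [h2, h3, eq_comm, Prod.ext_iff]
    · by_cases h2 : b = b' <;> by_cases h3 : a' = j <;> simp [h2, h3, eq_comm, Prod.ext_iff]

include H in
theorem diff_SS (F : Finset (LL σ A mm)) (g : CR) (b a a' : ℕ) (ha : a < (σ b).length)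
    (ha' : a' < (σ b).length) :
    ξ b a (SS σ ξ e A mm F g) - ξ b a' (SS σ ξ e A mm F g) =
      DD σ ξ A mm F g b a - DD σ ξ A mm F g b a' := by
  unfold SS DD
  rw [map_sum, map_sum, ← Finset.sum_sub_distrib, ← Finset.sum_sub_distrib]
  apply Finset.sum_congr rfl
  intro q _
  rw [map_smul, map_smul, smul_eq_mul, smul_eq_mul, ← mul_sub, xi_v H q b a a' ha ha']
  split_ifs <;> simp

theorem DD_mem (F : Finset (LL σ A mm)) (g : CR) (b a : ℕ)
    (q : LL σ A mm) (hq : q ∈ F) (h : q.1 = (b, a)) :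
    DD σ ξ A mm F g b a = ξ b a g - ξ b (mm b) g := by
  unfold DD
  rw [Finset.sum_eq_single q]
  · rw [if_pos h, h]
    rfl
  · intro q' _ hne
    rw [if_neg]
    intro h'
    exact hne (Subtype.ext (h'.trans h.symm))
  · intro h'
    exact absurd hq h'

theorem DD_cases (F : Finset (LL σ A mm)) (g : CR) (b a : ℕ) :
    DD σ ξ A mm F g b a = 0 ∨ (b ∈ A ∧ DD σ ξ A mm F g b a = ξ b a g - ξ b (mm b) g) := by
  by_cases h : ∃ q ∈ F, q.1 = (b, a)
  · obtain ⟨q, hq, h⟩ := h
    right
    refine ⟨?_, DD_mem F g b a q hq h⟩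
    have := q.2.1
    rw [h] at this
    exact this
  · left
    unfold DD
    apply Finset.sum_eq_zero
    intro q hq
    rw [if_neg]
    intro h'
    exact h ⟨q, hq, h'⟩

theorem XX_mono {B C : Set ℕ} (h : B ⊆ C) : XX σ e B ≤ XX σ e C := by
  apply Submodule.topologicalClosure_mono
  apply Submodule.span_mono
  rintro x ⟨b, hb, a, h1, h2, h3⟩
  exact ⟨b, h hb, a, h1, h2, h3⟩

theorem e_mem {b a : ℕ} (hb : b ∈ A) (h1 : 0 < a) (h2 : a < (σ b).length) :
    e b a ∈ XX σ e A :=
  Submodule.le_topologicalClosure _ (Submodule.subset_span ⟨b, hb, a, h1, h2, rfl⟩)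

theorem vv_mem (q : LL σ A mm) : vv σ e q.1 ∈ XX σ e A := by
  unfold vv
  split_ifs with h
  · apply Submodule.neg_mem
    apply Submodule.sum_mem
    intro a ha
    rw [Finset.mem_Ico] at ha
    exact e_mem q.2.1 (by omega) ha.2
  · exact e_mem q.2.1 (Nat.pos_of_ne_zero h) q.2.2.1

theorem SS_mem (F : Finset (LL σ A mm)) (g : CR) : SS σ ξ e A mm F g ∈ XX σ e A := by
  unfold SS
  apply Submodule.sum_mem
  intro q _
  exact Submodule.smul_mem _ _ (vv_mem q)

include H in
theorem est {f : ℕ → ℕ} (hf : ∀ k, k ≤ f k) (hm : ∀ b ∈ A, mm b < (σ b).length ∧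
    ∀ k, idx (σ b) k = mm b → mm b < idx (σ b) (f k)) (F : Finset (LL σ A mm)) (g : CR)
    (hg : g ∈ XX σ e A) (k : ℕ) (M : ℝ) (h : ∀ t : ℝ, |t| ≤ f k + 1 → |g t| ≤ M) (t : ℝ)
    (ht : |t| ≤ k) : |SS σ ξ e A mm F g t| ≤ M := by
  have hM : 0 ≤ M := (abs_nonneg _).trans (h 0 (by rw [abs_zero]; positivity))
  have hgu : g ∈ XX σ e univ := XX_mono (subset_univ _) hg
  refine H.up _ (XX_mono (subset_univ _) (SS_mem F g)) k M hM ?_ t ht
  intro b a a' ha ha'
  have hd := H.dn g hgu (f k) M h b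
  rw [diff_SS H F g b a a' ha ha']
  rcases DD_cases (ξ := ξ) F g b a with h1 | ⟨hb, h1⟩
  · rcases DD_cases (ξ := ξ) F g b a' with h2 | ⟨hb, h2⟩
    · rw [h1, h2]
      simpa using hM
    · rw [h1, h2, zero_sub, abs_neg]
      have h3 := hd a' (mm b) ha' (hm b hb).1
      refine le_trans (mul_le_mul_of_nonneg_right ?_ (abs_nonneg _)) h3
      rw [wt_symm]
      exact wt_m σ b k (f k) a' a (mm b) (hf k) ((hm b hb).2 k)
  · rcases DD_cases (ξ := ξ) F g b a' with h2 | ⟨_, h2⟩
    · rw [h1, h2, sub_zero]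
      have h3 := hd a (mm b) ha (hm b hb).1
      refine le_trans (mul_le_mul_of_nonneg_right ?_ (abs_nonneg _)) h3
      exact wt_m σ b k (f k) a a' (mm b) (hf k) ((hm b hb).2 k)
    · rw [h1, h2, sub_sub_sub_cancel_right]
      refine le_trans (mul_le_mul_of_nonneg_right ?_ (abs_nonneg _)) (hd a a' ha ha')
      exact wt_mono σ b a a' (hf k)

include H in
theorem span_supp (h : CR) (hh : h ∈ Submodule.span ℝ
    {x | ∃ b ∈ A, ∃ a, 0 < a ∧ a < (σ b).length ∧ x = e b a}) :
    ∃ B : Finset ℕ, (∀ b ∈ B, b ∈ A) ∧ ∀ b, b ∉ B → ∀ i, ξ b i h = 0 := by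
  induction hh using Submodule.span_induction with
  | mem x hx =>
    obtain ⟨b, hb, a, h1, h2, rfl⟩ := hx
    refine ⟨{b}, by simpa using hb, ?_⟩
    intro b' hb' i
    rw [H.ξe b a h1 h2, if_neg]
    rintro ⟨h3, _⟩
    exact hb' (by simp [h3])
  | zero => exact ⟨∅, by simp, by simp⟩
  | add x y _ _ hx hy =>
    classical
    obtain ⟨B, hB, hB'⟩ := hx
    obtain ⟨C, hC, hC'⟩ := hy
    refine ⟨B ∪ C, ?_, ?_⟩
    · intro b hb
      rcases Finset.mem_union.1 hb with h1 | h1
      · exact hB b h1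
      · exact hC b h1
    · intro b hb i
      rw [Finset.mem_union, not_or] at hb
      rw [map_add, hB' b hb.1, hC' b hb.2, add_zero]
  | smul c x _ hx =>
    obtain ⟨B, hB, hB'⟩ := hx
    refine ⟨B, hB, ?_⟩
    intro b hb i
    rw [map_smul, hB' b hb, smul_zero]

theorem fin_B (B : Finset ℕ) : {q : LL σ A mm | q.1.1 ∈ B}.Finite := by
  have h1 : (⋃ b ∈ B, (fun j => (b, j)) '' (Finset.range (σ b).length : Set ℕ)).Finite := by
    apply Set.Finite.biUnion (Finset.finite_toSet B)
    intro b _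
    exact (Finset.finite_toSet _).image _
  refine Set.Finite.of_finite_image (f := fun q : LL σ A mm => q.1) (h1.subset ?_) ?_
  · rintro _ ⟨q, hq, rfl⟩
    simp only [Set.mem_iUnion]
    refine ⟨q.1.1, hq, q.1.2, ?_, rfl⟩
    simpa using q.2.2.1
  · intro q _ q' _ h
    exact Subtype.ext h

include H in
theorem span_fix (hm : ∀ b ∈ A, mm b < (σ b).length) (h : CR) (hh : h ∈ Submodule.span ℝ
    {x | ∃ b ∈ A, ∃ a, 0 < a ∧ a < (σ b).length ∧ x = e b a}) :
    ∃ F₀ : Finset (LL σ A mm), ∀ F, F₀ ⊆ F → SS σ ξ e A mm F h = h := by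
  obtain ⟨B, hB, hB'⟩ := span_supp H h hh
  refine ⟨(fin_B (σ := σ) (A := A) (mm := mm) B).toFinset, ?_⟩
  intro F hF
  have hX : h ∈ XX σ e A := Submodule.le_topologicalClosure _ hh
  have hmem : SS σ ξ e A mm F h - h ∈ XX σ e univ :=
    XX_mono (subset_univ _) (Submodule.sub_mem _ (SS_mem F h) hX)
  ext t
  obtain ⟨k, hk⟩ := exists_nat_ge |t|
  have key := H.up _ hmem k 0 le_rfl (fun b a a' ha ha' => by
    have hD : ∀ i, i < (σ b).length →
        DD σ ξ A mm F h b i = ξ b i h - ξ b (mm b) h := by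
      intro i hi
      by_cases hb : b ∈ B
      · by_cases him : i = mm b
        · rcases DD_cases (ξ := ξ) F h b i with h1 | ⟨_, h1⟩
          · rw [h1, him, sub_self]
          · exact h1
        · let q : LL σ A mm := ⟨(b, i), hB b hb, hi, him⟩
          refine DD_mem F h b i q (hF ?_) rfl
          rw [Set.Finite.mem_toFinset]
          exact hb
      · rcases DD_cases (ξ := ξ) F h b i with h1 | ⟨_, h1⟩
        · rw [h1, hB' b hb, hB' b hb, sub_zero]
        · exact h1
    rw [map_sub, map_sub]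
    have h2 := diff_SS H F h b a a' ha ha'
    rw [hD a ha, hD a' ha'] at h2
    have h3 : ξ b a (SS σ ξ e A mm F h) - ξ b a h - (ξ b a' (SS σ ξ e A mm F h) - ξ b a' h) = 0 := by
      linarith
    rw [h3, abs_zero, mul_zero]) t hk
  have h4 : (SS σ ξ e A mm F h - h) t = 0 := abs_nonpos_iff.1 key
  rw [ContinuousMap.sub_apply] at h4
  linarith

theorem approx (g : CR) (K : Set CR) (hg : g ∈ closure K) (k ε : ℝ) (hε : 0 < ε) :
    ∃ h ∈ K, ∀ t : ℝ, |t| ≤ k → |g t - h t| ≤ ε := by
  have h1 : TendstoUniformlyOn (fun (h : CR) (x : ℝ) => h x) g (𝓝 g) (Icc (-k) k) :=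
    ContinuousMap.tendsto_iff_forall_isCompact_tendstoUniformlyOn.1
      (tendsto_id : Tendsto (fun h : CR => h) (𝓝 g) (𝓝 g)) _ isCompact_Icc
  rw [Metric.tendstoUniformlyOn_iff] at h1
  have h2 := h1 ε hε
  obtain ⟨h, hh, hK⟩ := (mem_closure_iff_frequently.1 hg).and_eventually h2 |>.exists
  refine ⟨h, hh, fun t ht => ?_⟩
  have := hK t (abs_le.1 ht)
  rw [Real.dist_eq] at this
  exact this.le

include H in
theorem conv {f : ℕ → ℕ} (hf : ∀ k, k ≤ f k) (hm : ∀ b ∈ A, mm b < (σ b).length ∧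
    ∀ k, idx (σ b) k = mm b → mm b < idx (σ b) (f k)) (g : CR)
    (hg : g ∈ XX σ e A) (k : ℕ) (ε : ℝ) (hε : 0 < ε) :
    ∃ F₀ : Finset (LL σ A mm), ∀ F, F₀ ⊆ F → ∀ t : ℝ, |t| ≤ k →
      |SS σ ξ e A mm F g t - g t| ≤ 2 * ε := by
  obtain ⟨h, hh, hgh⟩ := approx g _ hg (f k + 1) ε hε
  obtain ⟨F₀, hF₀⟩ := span_fix H (fun b hb => (hm b hb).1) h hh
  refine ⟨F₀, fun F hF t ht => ?_⟩
  have hX : h ∈ XX σ e A := Submodule.le_topologicalClosure _ hh
  have h1 := est H hf hm F (g - h) (Submodule.sub_mem _ hg hX) k ε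
    (fun t ht => by rw [ContinuousMap.sub_apply]; exact hgh t ht) t ht
  have h2 : SS σ ξ e A mm F (g - h) = SS σ ξ e A mm F g - SS σ ξ e A mm F h := by
    unfold SS
    rw [← Finset.sum_sub_distrib]
    apply Finset.sum_congr rfl
    intro q _
    rw [map_sub, sub_smul]
  rw [h2, hF₀ F hF, ContinuousMap.sub_apply] at h1
  have h3 : |t| ≤ (f k : ℝ) + 1 := by
    have : (k : ℝ) ≤ f k := by exact_mod_cast hf k
    linarith
  have h4 := hgh t h3
  have h5 : SS σ ξ e A mm F g t - g t = (SS σ ξ e A mm F g t - h t) - (g t - h t) := by ring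
  rw [h5]
  refine (abs_sub _ _).trans ?_
  linarith

end main

end Pool.Agent.H418R3.FB.Pos

namespace Pool.Agent.H418R3.FB

open Pos

theorem taskPos : TaskPos := by
  classical
  intro σ ξ e H A f hf hm
  have hm' : ∀ b : ℕ, ∃ m : ℕ, b ∈ A → m < (σ b).length ∧
      ∀ k, idx (σ b) k = m → m < idx (σ b) (f k) := by
    intro b
    by_cases hb : b ∈ A
    · obtain ⟨m, h1, h2⟩ := hm b hb
      exact ⟨m, fun _ => ⟨h1, h2⟩⟩
    · exact ⟨0, fun h => absurd h hb⟩
  choose mm hmm using hm'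
  rcases finite_or_infinite (LL σ A mm) with hfin | hinf
  · left
    haveI := Fintype.ofFinite (LL σ A mm)
    have hle : XX σ e A ≤ Submodule.span ℝ (Set.range fun q : LL σ A mm => vv σ e q.1) := by
      intro g hg
      have h1 : SS σ ξ e A mm Finset.univ g = g := by
        ext t
        obtain ⟨k, hk⟩ := exists_nat_ge |t|
        have h2 : ∀ ε : ℝ, 0 < ε → |SS σ ξ e A mm Finset.univ g t - g t| ≤ 2 * ε := by
          intro ε hε
          obtain ⟨F₀, hF₀⟩ := conv H hf (fun b hb => hmm b hb) g hg k ε hε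
          exact hF₀ _ (Finset.subset_univ _) t hk
        have h3 : |SS σ ξ e A mm Finset.univ g t - g t| ≤ 0 := by
          apply le_of_forall_pos_le_add
          intro ε hε
          have := h2 (ε / 2) (by positivity)
          linarith
        have h4 := abs_nonpos_iff.1 h3
        linarith
      rw [← h1]
      unfold SS
      apply Submodule.sum_mem
      intro q _
      exact Submodule.smul_mem _ _ (Submodule.subset_span ⟨q, rfl⟩)
    haveI : FiniteDimensional ℝ
        (Submodule.span ℝ (Set.range fun q : LL σ A mm => vv σ e q.1)) :=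
      FiniteDimensional.span_of_finite ℝ (Set.finite_range _)
    exact Submodule.finiteDimensional_of_le hle
  · right
    haveI : Countable (LL σ A mm) := by
      unfold LL
      infer_instance
    obtain ⟨φ⟩ : Nonempty (ℕ ≃ LL σ A mm) := nonempty_equiv_of_countable
    refine ⟨fun n => vv σ e (φ n).1, fun n => vv_mem (φ n), ?_⟩
    intro g hg
    have hsum : ∀ N, ∑ i ∈ Finset.range N, cc ξ mm (φ i).1 g • vv σ e (φ i).1 =
        SS σ ξ e A mm ((Finset.range N).map φ.toEmbedding) g := by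
      intro N
      unfold SS
      rw [Finset.sum_map]
      rfl
    refine ⟨fun n => cc ξ mm (φ n).1 g, ?_, ?_⟩
    · simp only
      rw [ContinuousMap.tendsto_iff_forall_isCompact_tendstoUniformlyOn]
      intro K hK
      obtain ⟨R, hR⟩ := hK.isBounded.exists_norm_le
      obtain ⟨k, hk⟩ := exists_nat_ge R
      rw [Metric.tendstoUniformlyOn_iff]
      intro ε hε
      obtain ⟨F₀, hF₀⟩ := conv H hf (fun b hb => hmm b hb) g hg k (ε / 4) (by positivity)
      have hev : ∀ᶠ N in atTop, F₀ ⊆ (Finset.range N).map φ.toEmbedding := by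
        filter_upwards [eventually_gt_atTop (F₀.sup fun q => φ.symm q)] with N hN
        intro q hq
        rw [Finset.mem_map]
        refine ⟨φ.symm q, ?_, by simp⟩
        rw [Finset.mem_range]
        exact lt_of_le_of_lt (Finset.le_sup (f := fun q => φ.symm q) hq) hN
      filter_upwards [hev] with N hN
      intro t ht
      have h1 : |t| ≤ k := (hR t ht).trans hk
      have h2 := hF₀ _ hN t h1
      rw [dist_comm, Real.dist_eq, hsum N]
      linarith
    · intro a ha
      funext i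
      have h1 : Tendsto (fun N => cc ξ mm (φ i).1 (∑ j ∈ Finset.range N, a j • vv σ e (φ j).1))
          atTop (𝓝 (cc ξ mm (φ i).1 g)) :=
        ((cc ξ mm (φ i).1).continuous.tendsto g).comp ha
      have h2 : Tendsto (fun N => cc ξ mm (φ i).1 (∑ j ∈ Finset.range N, a j • vv σ e (φ j).1))
          atTop (𝓝 (a i)) := by
        apply tendsto_const_nhds.congr'
        filter_upwards [eventually_gt_atTop i] with N hN
        rw [map_sum]
        have h3 : ∀ j, cc ξ mm (φ i).1 (a j • vv σ e (φ j).1) = if j = i then a i else 0 := by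
          intro j
          rw [map_smul, smul_eq_mul]
          have h4 : cc ξ mm (φ i).1 (vv σ e (φ j).1) = if j = i then 1 else 0 := by
            have h5 := xi_v H (φ j) (φ i).1.1 (φ i).1.2 (mm (φ i).1.1) (φ i).2.2.1
              (hmm _ (φ i).2.1).1
            unfold cc
            rw [ContinuousLinearMap.sub_apply, h5]
            have h6 : ¬ ((φ j).1 = ((φ i).1.1, mm (φ i).1.1)) := by
              intro h
              apply (φ j).2.2.2
              rw [h]
            rw [if_neg h6, sub_zero]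
            by_cases h7 : j = i
            · subst h7
              simp
            · rw [if_neg h7, if_neg]
              intro h8
              apply h7
              apply φ.injective
              exact Subtype.ext h8
          rw [h4]
          by_cases h7 : j = i
          · subst h7; simp
          · simp [h7]
        rw [Finset.sum_congr rfl fun j _ => h3 j, Finset.sum_ite_eq', if_pos]
        exact Finset.mem_range.2 hN
      exact tendsto_nhds_unique h2 h1

end Pool.Agent.H418R3.FB
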